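import Pool.Agent.Y576.LE.Sharp

/-!
# Lie exponents: the sharp lower bound in terms of the rank

A strengthening of `HeisenbergFamily`.  The definitions (`RealLieGroup`, `rank`, `IsSubmanifold`,
`TripleProductProperty`, `RealLieGroup.lieExponent`) are in `Pool.Agent.W964.LieExp.Defs`, the
Heisenberg groups `Heis.lie n` of dimension `2 n + 1` in `Pool.Agent.W964.LieExp.Heis`.

If three submanifolds of positive dimension satisfy the triple product property then, by invariance
of domain, the sum of any two of the dimensions is less than the dimension of the group. It follows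
that the Lie exponent of a group of rank `r ≥ 3` is at least `2 + 2 / (r - 1)`; for the Heisenberg
groups, of rank `r = 2 n + 1`, this is the upper bound `2 + 1 / n`.
-/

set_option autoImplicit false

open Filter Topology
open Pool.Agent.W964.LieExp

namespace Pool.Agent.Results.MP_56bb89_lc.SharpRankBound

/-- **Theorem.** (1) Every real Lie group of rank `r ≥ 3` has Lie exponent at least
`2 + 2 / (r - 1)`. (2) Every real Lie group of rank at most `3` has Lie exponent at least `3`.
(3) The Lie exponent is larger than `2` for every real Lie group. (4) The Lie exponent of the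
Heisenberg group `H_n` of dimension `2 n + 1` is exactly `2 + 1 / n`. (5) The bound (1) is attained
for every odd rank: `2 + 1 / n` is the least Lie exponent of the real Lie groups of rank `2 n + 1`.
(6) The Lie exponents of the Heisenberg groups tend to `2`, and the infimum of the Lie exponents of
all real Lie groups is `2`: the answer to the question is yes. (7) If the Lie exponents of a
sequence of Lie groups tend to `2` then the ranks tend to infinity, so that no family of bounded
rank has Lie exponent `2`. -/
theorem result :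
    (∀ A : RealLieGroup, 3 ≤ rank A.E A.G →
      ((2 + 2 / ((rank A.E A.G : ℝ) - 1) : ℝ) : EReal) ≤ A.lieExponent) ∧
    (∀ A : RealLieGroup, rank A.E A.G ≤ 3 → 3 ≤ A.lieExponent) ∧
    (∀ A : RealLieGroup, 2 < A.lieExponent) ∧
    (∀ n : ℕ, 1 ≤ n → (Heis.lie n).lieExponent = ((2 + 1 / (n : ℝ) : ℝ) : EReal)) ∧
    (∀ n : ℕ, 1 ≤ n → IsLeast {w : EReal | ∃ A : RealLieGroup, rank A.E A.G = 2 * n + 1 ∧
      w = A.lieExponent} ((2 + 1 / (n : ℝ) : ℝ) : EReal)) ∧
    (Tendsto (fun n : ℕ => (Heis.lie n).lieExponent) atTop (𝓝 2) ∧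
      ⨅ A : RealLieGroup, A.lieExponent = 2) ∧
    (∀ A : ℕ → RealLieGroup, Tendsto (fun i => (A i).lieExponent) atTop (𝓝 2) →
      Tendsto (fun i => rank (A i).E (A i).G) atTop atTop) := by
  refine ⟨Y576.LE.le_lieExponent, Y576.LE.three_le_lieExponent, Y576.LE.two_lt_lieExponent,
    Y576.LE.lieExponent_heis, fun n hn => ⟨⟨Heis.lie n, Heis.rank_eq n, ?_⟩, ?_⟩,
    ⟨Heis.tendsto_lieExponent, le_antisymm ?_ ?_⟩, ?_⟩
  · exact (Y576.LE.lieExponent_heis n hn).symm
  · rintro w ⟨A, hA, rfl⟩
    have h1 := Y576.LE.le_lieExponent A (by rw [hA]; omega)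
    rw [hA] at h1
    have hn0 : (0 : ℝ) < n := by exact_mod_cast hn
    have h2 : (2 + 2 / (((2 * n + 1 : ℕ) : ℝ) - 1) : ℝ) = 2 + 1 / (n : ℝ) := by
      push_cast
      rw [add_sub_cancel_right]
      congr 1
      field_simp
    rwa [h2] at h1
  · exact ge_of_tendsto Heis.tendsto_lieExponent (Eventually.of_forall fun n => iInf_le _ _)
  · exact le_iInf two_le_lieExponent
  · intro A hA
    rw [tendsto_atTop]
    intro b
    set c : ℝ := 2 + 2 / ((b : ℝ) + 2) with hc
    have hcpos : 0 < 2 / ((b : ℝ) + 2) := by positivity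
    have hlt : (2 : EReal) < ((c : ℝ) : EReal) := by
      have : ((2 : ℝ) : EReal) < ((c : ℝ) : EReal) := EReal.coe_lt_coe_iff.2 (by rw [hc]; linarith)
      exact this
    filter_upwards [hA.eventually (gt_mem_nhds hlt)] with i hi
    by_contra hr
    push Not at hr
    rcases Nat.lt_or_ge (rank (A i).E (A i).G) 3 with h3 | h3
    · have h4 := Y576.LE.three_le_lieExponent (A i) h3.le
      have h5 : ((c : ℝ) : EReal) ≤ ((3 : ℝ) : EReal) := by
        apply EReal.coe_le_coe_iff.2
        have h6 : 2 / ((b : ℝ) + 2) ≤ 1 := by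
          rw [div_le_one (by positivity)]
          have : (0 : ℝ) ≤ b := Nat.cast_nonneg b
          linarith
        rw [hc]; linarith
      exact absurd (lt_of_le_of_lt (h5.trans h4) hi) (lt_irrefl _)
    · have h4 := Y576.LE.le_lieExponent (A i) h3
      have h3' : (3 : ℝ) ≤ rank (A i).E (A i).G := by exact_mod_cast h3
      have hr' : (rank (A i).E (A i).G : ℝ) < b := by exact_mod_cast hr
      have h5 : ((c : ℝ) : EReal) ≤ ((2 + 2 / ((rank (A i).E (A i).G : ℝ) - 1) : ℝ) : EReal) := by
        apply EReal.coe_le_coe_iff.2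
        have h6 : 2 / ((b : ℝ) + 2) ≤ 2 / ((rank (A i).E (A i).G : ℝ) - 1) :=
          div_le_div_of_nonneg_left (by norm_num) (by linarith) (by linarith)
        rw [hc]; linarith
      exact absurd (lt_of_le_of_lt (h5.trans h4) hi) (lt_irrefl _)

end Pool.Agent.Results.MP_56bb89_lc.SharpRankBound
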